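import Pool.Agent.Helper9.UNI.Sheet

/-!
# Project UNI, row LVWu: the unified lower bound with a constant depending on the degree only
-/

set_option autoImplicit false

open Filter Topology NumberField

namespace Pool.Agent.Helper47.UNI

open Pool.Agent.Helper42.LS Pool.Agent.Helper42.LK Pool.Agent.Helper92.LV Pool.Agent.Helper9.UNI

/-- one place of size at least `(1 + HK) / X`, constant depending on the degree only -/
def BIGu : Prop := ∀ D : ℕ, ∃ c : ℝ, 0 < c ∧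
  ∀ (K : Type) [Field K] [NumberField K], Module.finrank ℚ K ≤ D →
  ∀ A B : K, dsc A B ≠ 0 → ∀ (x y : ℕ → K) (e : ℝ), GSeq (0 : K) A B x y → IsCanK x e →
  ∀ X : ℝ, 1 ≤ X → (∃ v : FinitePlace K, (1 + HK A B) / X ≤ dl (fun x : K => v x) A B) →
  c * (1 + HK A B) / X ^ 3 ≤ e

theorem bigu (hKM : ST_KMT3u) (hCK : ST_CK) (hSM : ST_KSMu) (hLV : ST_LVu) : BIGu := by
  intro D
  obtain ⟨C₀, hC₀, hKM⟩ := hKM D
  obtain ⟨ca, hca, hLV⟩ := hLV D
  obtain ⟨H₀, hH₀⟩ : ∃ H₀ : ℝ, H₀ = (1000 * (1 + C₀) * (1 + C₀)) ^ 2 := ⟨_, rfl⟩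
  have hH₀0 : 0 < H₀ := by rw [hH₀]; positivity
  obtain ⟨cs, hcs, hsmall⟩ := hSM D H₀
  obtain ⟨c, hcd⟩ : ∃ c : ℝ, c = min (cs / (1 + H₀))
    (min ca (1 / (3 * (8 * (1 + C₀) ^ 3 * 5184000)))) := ⟨_, rfl⟩
  have hc : 0 < c := by
    rw [hcd]; exact lt_min (by positivity) (lt_min (by positivity) (by positivity))
  have hc1 : c ≤ cs / (1 + H₀) := by rw [hcd]; exact min_le_left _ _
  have hc2 : c ≤ ca := by
    rw [hcd]; exact (min_le_right _ _).trans (min_le_left _ _)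
  have hc3 : c ≤ 1 / (3 * (8 * (1 + C₀) ^ 3 * 5184000)) := by
    rw [hcd]; exact (min_le_right _ _).trans (min_le_right _ _)
  refine ⟨c, hc, ?_⟩
  intro K _ _ hKD A B hD x y e hg he X hX hv
  obtain ⟨hLD0, H, hLDH, hHK, hHK2, V, Vf, w, t, n, hM, -, -, hbig⟩ := hKM K hKD A B hD x y e hg he
  have hHK0 : 0 ≤ HK A B := by linarith
  have hX0 : 0 < X := by linarith
  have hX3 : 1 ≤ X ^ 3 := one_le_pow₀ hX
  obtain ⟨h1, -⟩ := hLV K hKD A B hD x y e hg he
  obtain ⟨Y, hYd⟩ : ∃ Y : ℝ, Y = 1 + HK A B := ⟨_, rfl⟩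
  rw [← hYd] at h1 hv ⊢
  have hY1 : 1 ≤ Y := by linarith
  have hY0 : 0 < Y := by linarith
  have hsY : √Y ^ 2 = Y := Real.sq_sqrt hY0.le
  have hsY1 : 1 ≤ √Y := Real.one_le_sqrt.2 hY1
  by_cases hHs : HK A B ≤ H₀
  · have h2 := hsmall K hKD A B hD hHs x y e hg he
    rw [le_div_iff₀ (by positivity)] at hc1
    calc c * Y / X ^ 3 ≤ c * Y := div_le_self (by positivity) hX3
      _ ≤ c * (1 + H₀) := mul_le_mul_of_nonneg_left (by linarith) hc.le
      _ ≤ e := by linarith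
  push Not at hHs
  by_cases hXs : √Y ≤ X
  · refine le_trans ?_ h1
    have hpow : Y ^ (-(1 / 2 : ℝ)) = 1 / √Y := by
      rw [Real.rpow_neg hY0.le, ← Real.sqrt_eq_rpow, one_div]
    rw [hpow, mul_one_div, div_le_div_iff₀ (by positivity) (by linarith)]
    calc c * Y * √Y = c * √Y ^ 3 := by
          rw [show √Y ^ 3 = √Y ^ 2 * √Y by ring, hsY]; ring
      _ ≤ c * X ^ 3 := by
          apply mul_le_mul_of_nonneg_left _ hc.le
          exact pow_le_pow_left₀ (by linarith) hXs 3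
      _ ≤ ca * X ^ 3 := mul_le_mul_of_nonneg_right hc2 (by positivity)
  push Not at hXs
  obtain ⟨v, hv⟩ := hv
  obtain ⟨i, hi, hi2⟩ := hbig v
  have hsbig : 1000 * (1 + C₀) * (1 + C₀) ≤ √Y := by
    apply Real.le_sqrt_of_sq_le
    rw [← hH₀]; linarith
  have hYX : √Y ≤ Y / X := by
    rw [le_div_iff₀ hX0]
    calc √Y * X ≤ √Y * √Y := mul_le_mul_of_nonneg_left hXs.le (by linarith)
      _ = Y := Real.mul_self_sqrt hY0.le
  have hC1 : C₀ ≤ 1000 * (1 + C₀) * (1 + C₀) / 2 := by nlinarith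
  have hwi : Y / X / 2 ≤ w i := by linarith
  have htot := abs_le.1 hM.total
  obtain ⟨W, hW⟩ : ∃ W : ℝ, W = ∑ v ∈ V, w v := ⟨_, rfl⟩
  rw [← hW] at htot
  have hsYY : √Y ≤ Y := by nlinarith
  have hWY : W ≤ (1 + C₀) * Y := by nlinarith
  have hYW : Y ≤ 3 * W := by
    have h2 : 1000 * (1 + C₀) ≤ 1000 * (1 + C₀) * (1 + C₀) := by nlinarith
    linarith
  have hW0 : 0 < W := by linarith
  obtain ⟨κ, hκ⟩ : ∃ κ : ℝ, κ = 1 / (2 * (1 + C₀) * X) := ⟨_, rfl⟩
  have hκ0 : 0 < κ := by rw [hκ]; positivity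
  have hκ1 : κ ≤ 1 := by
    rw [hκ, div_le_one (by positivity)]
    nlinarith
  have hκX : κ * X = 1 / (2 * (1 + C₀)) := by rw [hκ]; field_simp
  have hκY : κ * ((1 + C₀) * Y) = Y / X / 2 := by rw [hκ]; field_simp
  have h3 := kfin_CK hCK hM hκ0 hκ1 hi
    (by
      rw [← hW]
      calc κ * W ≤ κ * ((1 + C₀) * Y) := mul_le_mul_of_nonneg_left hWY hκ0.le
        _ = Y / X / 2 := hκY
        _ ≤ w i := hwi)
    (by
      rw [← hW]
      have h4 : κ * Y ≤ κ * (3 * W) := mul_le_mul_of_nonneg_left hYW hκ0.le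
      have h5 : κ * Y = Y / X / (2 * (1 + C₀)) := by rw [hκ]; field_simp
      have h6 : 1000 * (1 + C₀) / 2 ≤ κ * Y := by
        rw [h5, le_div_iff₀ (by positivity)]
        calc 1000 * (1 + C₀) / 2 * (2 * (1 + C₀)) = 1000 * (1 + C₀) * (1 + C₀) := by ring
          _ ≤ √Y := hsbig
          _ ≤ Y / X := hYX
      linarith)
  rw [← hW] at h3
  refine le_trans ?_ h3
  have h7 : κ ^ 3 * Y = Y / (8 * (1 + C₀) ^ 3) / X ^ 3 := by rw [hκ]; field_simp; ring
  calc c * Y / X ^ 3 ≤ 1 / (3 * (8 * (1 + C₀) ^ 3 * 5184000)) * Y / X ^ 3 := by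
        apply div_le_div_of_nonneg_right _ (by positivity)
        exact mul_le_mul_of_nonneg_right hc3 hY0.le
    _ = κ ^ 3 * Y / (3 * 5184000) := by rw [h7]; field_simp
    _ ≤ κ ^ 3 * (3 * W) / (3 * 5184000) := by
        apply div_le_div_of_nonneg_right _ (by norm_num)
        exact mul_le_mul_of_nonneg_left hYW (by positivity)
    _ = κ ^ 3 * W / 5184000 := by ring

theorem lvwu_of (hKM : ST_KMT3u) (hBIG : BIGu) (hLV : ST_LVu) : ST_LVWu := by
  intro D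
  obtain ⟨c₁, hc₁, h1⟩ := hLV D
  obtain ⟨c₂, hc₂, h2⟩ := hBIG D
  refine ⟨min c₁ c₂, lt_min hc₁ hc₂, ?_⟩
  intro K _ _ hKD A B hD x y e hg he
  obtain ⟨h3, h4⟩ := h1 K hKD A B hD x y e hg he
  have h5 := h2 K hKD A B hD x y e hg he
  by_cases hH : 0 ≤ 1 + HK A B
  · refine ⟨(mul_le_mul_of_nonneg_right (min_le_left _ _) (Real.rpow_nonneg hH _)).trans h3, ?_⟩
    intro X hX hLW
    have hX0 : 0 < X := by linarith
    by_cases hv : ∃ v : FinitePlace K, (1 + HK A B) / X ≤ dl (fun x : K => v x) A B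
    · refine le_trans ?_ (h5 X hX hv)
      apply div_le_div_of_nonneg_right _ (by positivity)
      exact mul_le_mul_of_nonneg_right (min_le_right _ _) hH
    · push Not at hv
      have h6 : LX A B X = LW A B X := by
        unfold LX LW
        apply finsum_congr
        intro v
        by_cases h7 : X * lq v < dl (fun x : K => v x) A B
        · rw [if_pos h7, if_pos ⟨h7, hv v⟩]
        · rw [if_neg h7, if_neg (fun h8 => h7 h8.1)]
      refine le_trans ?_ (h4 X hX ?_)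
      · apply div_le_div_of_nonneg_right _ (by positivity)
        exact mul_le_mul_of_nonneg_right (min_le_left _ _) hH
      · rw [h6]
        exact hLW.trans (mul_le_mul_of_nonneg_right (min_le_left _ _) hH)
  · exfalso
    apply hH
    obtain ⟨C₀, -, hMT⟩ := hKM D
    obtain ⟨h0, H, h7, h8, -⟩ := hMT K hKD A B hD x y e hg he
    linarith

/-- row LVWu -/
theorem LVWu (hKM : ST_KMT3u) (hCK : ST_CK) (hSM : ST_KSMu) (hLV : ST_LVu) : ST_LVWu :=
  lvwu_of hKM (bigu hKM hCK hSM hLV) hLV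

end Pool.Agent.Helper47.UNI
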